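import Pool.Agent.H207.BT.Stm6
import Pool.Agent.H356.BT207.REAL1

/-!
# Project BT: the real estimates in the recursion, with a bound for `N`
-/

set_option autoImplicit false

namespace Pool.Agent.H686.BT207

open Pool.Agent.H207.BT Pool.Agent.H356.BT207

theorem T_aux1 {l D n a b u : ℝ} (hl : 1 ≤ l) (hD : 0 ≤ D) (_hn : 0 ≤ n)
    (F3 : a + n + u ≤ l) (F4 : b ≤ n + 64 * u) (F5 : -D ≤ a + b / 64) :
    n ≤ 2 * (1 + D) * l := by
  have h1 : (63 / 64) * n ≤ l + D := by linarith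
  have h2 : D * 1 ≤ D * l := mul_le_mul_of_nonneg_left hl hD
  linarith

theorem t_REAL1T : S_REAL1T := by
  intro C c μ B K₀ β δ₁ M hc hμ hμC hB hK hβ hβC hδ₁ hδ₁1
  have hB0 : 0 < B := by linarith
  have hK0 : 0 < K₀ := by linarith
  have hμ0 : 0 < μ := by linarith
  have hC0 : 0 < C := by linarith
  have hlogμ : 0 < Real.log μ := Real.log_pos hμ
  have hlogC : Real.log μ ≤ Real.log C := Real.log_le_log hμ0 hμC
  have hβ1 : β ≤ 1 / 16 := by
    have h : β * Real.log C ≤ (1 / 16) * Real.log C := by linarith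
    exact le_of_mul_le_mul_right h (by linarith)
  obtain ⟨δb, hδb0, hmain⟩ := t_REAL1 C c μ B K₀ β δ₁ M hc hμ hμC hB hK hβ hβC hδ₁ hδ₁1
  obtain ⟨L, hL⟩ : ∃ L, L = 2 * K₀ * B := ⟨_, rfl⟩
  have hL1 : 1 ≤ L := by rw [hL]; nlinarith
  have hL0 : 0 < L := by linarith
  obtain ⟨c₀, hc₀e⟩ : ∃ c₀, c₀ = c / B := ⟨_, rfl⟩
  have hc₀ : 0 < c₀ := by rw [hc₀e]; exact div_pos hc hB0
  obtain ⟨a1, ha1e⟩ : ∃ a1, a1 = (c₀ * L) ^ (8 * β) := ⟨_, rfl⟩
  have ha1 : 0 < a1 := by rw [ha1e]; exact Real.rpow_pos_of_pos (by positivity) _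
  have hcL : 0 < c₀ / L := div_pos hc₀ hL0
  obtain ⟨D, hD⟩ : ∃ D, D = |Real.log (c₀ / L) + Real.log a1 / 64| := ⟨_, rfl⟩
  have hD0 : 0 ≤ D := by rw [hD]; exact abs_nonneg _
  obtain ⟨G, hG⟩ : ∃ G, G = |Real.log (B / c)| + 2 * |Real.log δ₁| := ⟨_, rfl⟩
  have hG0 : 0 ≤ G := by rw [hG]; positivity
  refine ⟨min δb 1, lt_min hδb0 one_pos,
    (2 * (1 + D) / Real.log μ + 1) + (G + 2) / Real.log μ, by positivity, ?_⟩
  intro δ δ' P N m hδ hδb hδ'1 hδ'2 hm hmM hP hPC hR H y hy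
  obtain ⟨r1, r2, r3, r4⟩ := hmain δ δ' P N m hδ (hδb.trans_le (min_le_left _ _)) hδ'1 hδ'2 hm hmM
    hP hPC hR H y hy
  refine ⟨r1, r2, r3, ?_, r4⟩
  have hδ1 : δ ≤ 1 := hδb.le.trans (min_le_right _ _)
  have hy0 : 0 < y ^ (m + 1) := pow_pos r1 _
  -- the logarithm is at least `1`
  have hlog1 : 1 ≤ Real.log (y ^ (m + 1) / δ) := by
    rw [Real.le_log_iff_exp_le (div_pos hy0 hδ), le_div_iff₀ hδ]
    refine le_trans (mul_le_mul_of_nonneg_right ?_ hδ.le) r2
    have := Real.exp_one_lt_d9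
    nlinarith
  obtain ⟨l, hl⟩ : ∃ l, l = Real.log (y ^ (m + 1) / δ) := ⟨_, rfl⟩
  rw [← hl] at hlog1 ⊢
  rw [← hL] at H hy
  obtain ⟨u, hu⟩ : ∃ u, u = δ ^ (β / 8) := ⟨_, rfl⟩
  have hu0 : 0 < u := by rw [hu]; exact Real.rpow_pos_of_pos hδ _
  have hδu : δ ≤ u := by
    rw [hu]
    have := Real.rpow_le_rpow_of_exponent_ge hδ hδ1 (show β / 8 ≤ 1 by linarith)
    rwa [Real.rpow_one] at this
  have e1 : δ ^ (1 + β / 8) = δ * u := by rw [REAL1_one_add hδ, hu]
  have e3 : δ ^ (8 * β) = u ^ 64 := by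
    rw [hu, ← REAL1_pow hδ 64 (8 * β) (by push_cast; ring)]
  rw [e1] at hδ'1
  have hδ' : 0 < δ' := lt_of_lt_of_le (mul_pos hδ hu0) hδ'1
  obtain ⟨x, hx⟩ : ∃ x, x = δ' * P / L := ⟨_, rfl⟩
  rw [← hx] at H hy
  have hx0 : 0 < x := by rw [hx]; positivity
  have hx1 : x ≤ 1 := by
    rw [hx, div_le_one hL0]
    linarith
  have hμN0 : 0 < μ ^ N := pow_pos hμ0 N
  have hμN : 1 ≤ μ ^ N := one_le_pow₀ hμ.le
  have hEm : (δ₁ ^ ((1 : ℝ) / ((m : ℝ) + 1))) ^ (m + 1) = δ₁ := by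
    rw [← Real.rpow_natCast, ← Real.rpow_mul hδ₁.le]
    have : (1 : ℝ) / ((m : ℝ) + 1) * ((m + 1 : ℕ) : ℝ) = 1 := by
      push_cast
      field_simp
    rw [this, Real.rpow_one]
  have hN0 : (0 : ℝ) ≤ N := Nat.cast_nonneg N
  have hq1 : 0 ≤ (G + 2) / Real.log μ := by positivity
  have hq2 : 0 ≤ 2 * (1 + D) / Real.log μ + 1 := by positivity
  rcases le_total x (δ₁ ^ ((1 : ℝ) / ((m : ℝ) + 1))) with hc1 | hc2
  · have hyx : y = x := by rw [hy, min_eq_left hc1]
    rw [hyx] at hl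
    have F1 : c₀ * μ ^ N ≤ x ^ m * P := by
      have h1 : c * μ ^ N ≤ c * μ ^ (N + 1) :=
        mul_le_mul_of_nonneg_left (pow_le_pow_right₀ hμ.le (Nat.le_succ N)) hc.le
      have h2 : B * (c₀ * μ ^ N) ≤ B * (x ^ m * P) := by
        calc B * (c₀ * μ ^ N) = c * μ ^ N := by rw [hc₀e]; field_simp
          _ ≤ B * x ^ m * P := h1.trans H
          _ = B * (x ^ m * P) := by ring
      exact le_of_mul_le_mul_left h2 hB0
    have hmu : a1 ≤ μ ^ N * u ^ 64 := by
      rw [ha1e, ← e3]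
      refine REAL1_mu hμ hμC hβ hβC hδ hP hPC (by positivity) ?_
      have g1 : c₀ * (δ' / L) ≤ x ^ (m + 1) := by
        have g2 : x ^ (m + 1) = x ^ m * P * (δ' / L) := by
          have hxe : P * (δ' / L) = x := by rw [hx]; ring
          rw [mul_assoc, hxe, pow_succ]
        rw [g2]
        refine mul_le_mul_of_nonneg_right ?_ (by positivity)
        refine le_trans ?_ F1
        nlinarith
      have g3 : c₀ * (δ' / L) ≤ x ^ 2 :=
        g1.trans (pow_le_pow_of_le_one hx0.le hx1 (by omega))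
      have g4 : x ^ 2 = P ^ 2 * δ' / L * (δ' / L) := by
        rw [hx]; ring
      rw [g4] at g3
      have g5 := le_of_mul_le_mul_right g3 (by positivity : 0 < δ' / L)
      rw [le_div_iff₀ hL0] at g5
      refine g5.trans (mul_le_mul_of_nonneg_left hδ'2 (by positivity))
    have F2 : c₀ / L * μ ^ N * u ≤ x ^ (m + 1) / δ := by
      rw [le_div_iff₀ hδ]
      have g2 : x ^ (m + 1) = x ^ m * P * (δ' / L) := by
        have hxe : P * (δ' / L) = x := by rw [hx]; ring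
        rw [mul_assoc, hxe, pow_succ]
      rw [g2]
      have h1 : δ * u / L ≤ δ' / L := div_le_div_of_nonneg_right hδ'1 hL0.le
      calc c₀ / L * μ ^ N * u * δ = c₀ * μ ^ N * (δ * u / L) := by ring
        _ ≤ x ^ m * P * (δ' / L) := mul_le_mul F1 h1 (by positivity) (by positivity)
    have F3 : Real.log (c₀ / L) + N * Real.log μ + Real.log u ≤ l := by
      rw [hl]
      have h1 := Real.log_le_log (by positivity) F2
      rwa [Real.log_mul (by positivity) hu0.ne', Real.log_mul hcL.ne' hμN0.ne',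
        Real.log_pow] at h1
    have F4 : Real.log a1 ≤ N * Real.log μ + 64 * Real.log u := by
      have h1 := Real.log_le_log ha1 hmu
      rw [Real.log_mul hμN0.ne' (by positivity), Real.log_pow, Real.log_pow] at h1
      push_cast at h1
      exact h1
    have F5 : -D ≤ Real.log (c₀ / L) + Real.log a1 / 64 := by
      rw [hD]; exact neg_abs_le _
    have hNl : 0 ≤ N * Real.log μ := by positivity
    have F6 : N * Real.log μ ≤ 2 * (1 + D) * l := T_aux1 hlog1 hD0 hNl F3 F4 F5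
    have F7 : (N : ℝ) ≤ 2 * (1 + D) / Real.log μ * l := by
      rw [div_mul_eq_mul_div, le_div_iff₀ hlogμ]
      exact F6
    have F8 : 0 ≤ (G + 2) / Real.log μ * l := mul_nonneg hq1 (by linarith)
    rw [add_mul, add_mul, one_mul]
    linarith
  · have hyx : y = δ₁ ^ ((1 : ℝ) / ((m : ℝ) + 1)) := by rw [hy, min_eq_right hc2]
    rw [hyx, hEm] at hl
    have F1 : c * μ ^ (N + 1) * δ ^ 2 ≤ B := by
      have h1 : x ^ m ≤ 1 := pow_le_one₀ hx0.le hx1
      have h2 : B * x ^ m * P ≤ B * P := by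
        have h3 : B * x ^ m ≤ B := by nlinarith
        exact mul_le_mul_of_nonneg_right h3 hP.le
      have h3 : δ ^ 2 ≤ δ' := by
        refine le_trans ?_ hδ'1
        nlinarith
      calc c * μ ^ (N + 1) * δ ^ 2 ≤ (B * P) * δ' :=
            mul_le_mul (H.trans h2) h3 (by positivity) (by positivity)
        _ = B * (δ' * P) := by ring
        _ ≤ B * 1 := mul_le_mul_of_nonneg_left hR hB0.le
        _ = B := mul_one B
    have F2 : (N + 1) * Real.log μ + 2 * Real.log δ ≤ Real.log (B / c) := by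
      have h1 : μ ^ (N + 1) * δ ^ 2 ≤ B / c := by
        rw [le_div_iff₀ hc]
        calc μ ^ (N + 1) * δ ^ 2 * c = c * μ ^ (N + 1) * δ ^ 2 := by ring
          _ ≤ B := F1
      have h2 := Real.log_le_log (by positivity) h1
      rw [Real.log_mul (by positivity) (by positivity), Real.log_pow, Real.log_pow] at h2
      push_cast at h2
      exact h2
    have F3 : l = Real.log δ₁ - Real.log δ := by
      rw [hl, Real.log_div hδ₁.ne' hδ.ne']
    have F4 : Real.log (B / c) ≤ |Real.log (B / c)| := le_abs_self _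
    have F5 : -Real.log δ₁ ≤ |Real.log δ₁| := neg_le_abs _
    have F6 : (N + 1) * Real.log μ ≤ (G + 2) * l := by
      have h1 : (N + 1) * Real.log μ ≤ G + 2 * l := by
        rw [hG]; linarith
      have h2 : G * 1 ≤ G * l := mul_le_mul_of_nonneg_left hlog1 hG0
      linarith
    have F7 : (N : ℝ) + 1 ≤ (G + 2) / Real.log μ * l := by
      rw [div_mul_eq_mul_div, le_div_iff₀ hlogμ]
      exact F6
    have F8 : 0 ≤ (2 * (1 + D) / Real.log μ + 1) * l := mul_nonneg hq2 (by linarith)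
    rw [add_mul]
    linarith

end Pool.Agent.H686.BT207
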